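import Mathlib
import Pool.Agent.P8H9.UO.StmG

/-! # Project UO (helper9): package PAD -/

set_option autoImplicit false

namespace Pool.Agent.P8H1.UO

open Pool.Agent.P8H9.UO

/-- the identity behind PAD, in a field -/
theorem ident {F : Type*} [Field F] (R S T c₀ u e f g h a v A : F) (hR : R ≠ 0) (hS : S ≠ 0)
    (hT : T ≠ 0) (hu : c₀ * u = 1)
    (hA : A = 1 - R ^ 2 * S ^ 2 * T ^ 3 * (a * g - S * c₀ * e) * u) (hv : A * v = 1)
    (hdet : e + h + R ^ 2 * S ^ 3 * T ^ 3 * (e * h - f * g) = 0)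
    (m1 m2 m3 m4 : F) (h2 : m2 = T) (h3 : m3 = T ^ 2 * (a * g - S * c₀ * e) * u ^ 3)
    (h1 : m1 = -(R * S * T ^ 3 * g * u ^ 2 + T ^ 2 * (a * g - S * c₀ * e) * u ^ 3) * v)
    (h4 : m4 = (R * S ^ 3 * T ^ 3 * f + a * (R * S ^ 2 * T ^ 3) * (e - h) * u
      - a ^ 2 * (R * S * T ^ 3) * g * u ^ 2 - T) * v) :
    let c := S * c₀
    let P11 := 1 - R * m1 * a * c
    let P12 := R * m1 * a ^ 2
    let P21 := -(R * m1 * c ^ 2)
    let P22 := 1 + R * m1 * a * c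
    let Q11 := 1 - R * m3 * a * c
    let Q12 := R * m3 * a ^ 2
    let Q21 := -(R * m3 * c ^ 2)
    let Q22 := 1 + R * m3 * a * c
    let U11 := P11
    let U12 := P11 * (R * m2) + P12
    let U21 := P21
    let U22 := P21 * (R * m2) + P22
    let V11 := Q11
    let V12 := Q11 * (R * m4) + Q12
    let V21 := Q21
    let V22 := Q21 * (R * m4) + Q22
    U11 * V11 + U12 * V21 = 1 + R ^ 2 * S ^ 3 * T ^ 3 * e ∧
    U11 * V12 + U12 * V22 = R ^ 2 * S ^ 3 * T ^ 3 * f ∧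
    U21 * V11 + U22 * V21 = R ^ 2 * S ^ 3 * T ^ 3 * g ∧
    U21 * V12 + U22 * V22 = 1 + R ^ 2 * S ^ 3 * T ^ 3 * h := by
  intro c P11 P12 P21 P22 Q11 Q12 Q21 Q22 U11 U12 U21 U22 V11 V12 V21 V22
  have hc0 : c₀ ≠ 0 := left_ne_zero_of_mul_eq_one hu
  have hA0 : A ≠ 0 := left_ne_zero_of_mul_eq_one hv
  have hu' : u = 1 / c₀ := by field_simp; linear_combination hu
  have hv' : v = 1 / A := by field_simp; linear_combination hv
  have hc : c ≠ 0 := mul_ne_zero hS hc0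
  have e1 : A * c₀ = c₀ - R ^ 2 * S ^ 2 * T ^ 3 * (a * g - S * c₀ * e) := by
    rw [hA, hu']; field_simp
  have i1 : U11 * V11 + U12 * V21 = 1 + R ^ 2 * S ^ 3 * T ^ 3 * e := by
    simp only [U11, V11, U12, V21, P11, P12, Q11, Q21, c]
    rw [h1, h2, h3, hv', hu']
    field_simp
    have : A = (c₀ - R ^ 2 * S ^ 2 * T ^ 3 * (a * g - S * c₀ * e)) / c₀ := by
      field_simp; linear_combination e1
    rw [this]
    field_simp
    ring
  have i2 : U21 * V11 + U22 * V21 = R ^ 2 * S ^ 3 * T ^ 3 * g := by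
    simp only [U21, V11, U22, V21, P21, P22, Q11, Q21, c]
    rw [h1, h2, h3, hv', hu']
    field_simp
    have : A = (c₀ - R ^ 2 * S ^ 2 * T ^ 3 * (a * g - S * c₀ * e)) / c₀ := by
      field_simp; linear_combination e1
    rw [this]
    field_simp
    ring
  have i3 : (U11 * V11 + U12 * V21) * (U21 * V12 + U22 * V22) -
      (U11 * V12 + U12 * V22) * (U21 * V11 + U22 * V21) = 1 := by
    simp only [U11, U12, U21, U22, V11, V12, V21, V22, P11, P12, P21, P22, Q11, Q12, Q21, Q22]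
    ring
  have i4 : c * (c * (U11 * V12 + U12 * V22) + a * ((U11 * V11 + U12 * V21) -
      (U21 * V12 + U22 * V22))) - a ^ 2 * (U21 * V11 + U22 * V21) =
      c * (c * (R ^ 2 * S ^ 3 * T ^ 3 * f) + a * (R ^ 2 * S ^ 3 * T ^ 3 * (e - h))) -
        a ^ 2 * (R ^ 2 * S ^ 3 * T ^ 3 * g) := by
    have j : c * (c * (U11 * V12 + U12 * V22) + a * ((U11 * V11 + U12 * V21) -
      (U21 * V12 + U22 * V22))) - a ^ 2 * (U21 * V11 + U22 * V21) =
      c ^ 2 * (R * m2 + (1 - R * m2 * (R * m3) * c ^ 2) * (R * m4)) := by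
      simp only [U11, U12, U21, U22, V11, V12, V21, V22, P11, P12, P21, P22, Q11, Q12, Q21, Q22]
      ring
    rw [j]
    have hAA : 1 - R * m2 * (R * m3) * c ^ 2 = A := by
      rw [hA, h2, h3, hu']
      simp only [c]
      field_simp
    rw [hAA, h4, h2]
    simp only [c]
    have : A * (R * ((R * S ^ 3 * T ^ 3 * f + a * (R * S ^ 2 * T ^ 3) * (e - h) * u -
        a ^ 2 * (R * S * T ^ 3) * g * u ^ 2 - T) * v)) =
        R * (R * S ^ 3 * T ^ 3 * f + a * (R * S ^ 2 * T ^ 3) * (e - h) * u -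
        a ^ 2 * (R * S * T ^ 3) * g * u ^ 2 - T) := by
      linear_combination (R * (R * S ^ 3 * T ^ 3 * f + a * (R * S ^ 2 * T ^ 3) * (e - h) * u -
        a ^ 2 * (R * S * T ^ 3) * g * u ^ 2 - T)) * hv
    rw [this, hu']
    field_simp
    ring
  set X11 := U11 * V11 + U12 * V21
  set X12 := U11 * V12 + U12 * V22
  set X21 := U21 * V11 + U22 * V21
  set X22 := U21 * V12 + U22 * V22
  set M := R ^ 2 * S ^ 3 * T ^ 3 with hM
  have k1 : c * (X12 - M * f) = a * (X22 - (1 + M * h)) := by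
    have : c * (c * (X12 - M * f)) = c * (a * (X22 - (1 + M * h))) := by
      rw [i1, i2] at i4
      linear_combination i4
    exact mul_left_cancel₀ hc this
  have k2 : (1 + M * e) * (X22 - (1 + M * h)) = M * g * (X12 - M * f) := by
    rw [i1, i2] at i3
    linear_combination i3 - M * hdet
  have k3 : c * A = c * (1 + M * e) - a * (M * g) := by
    simp only [c]
    linear_combination S * e1
  have k4 : X22 = 1 + M * h := by
    have : c * A * (X22 - (1 + M * h)) = 0 := by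
      rw [k3]
      linear_combination c * k2 + M * g * k1
    rcases mul_eq_zero.mp this with h | h
    · exact absurd h (mul_ne_zero hc hA0)
    · linear_combination h
  refine ⟨i1, ?_, i2, k4⟩
  have : c * (X12 - M * f) = 0 := by rw [k1, k4]; ring
  rcases mul_eq_zero.mp this with h | h
  · exact absurd h hc
  · linear_combination h

/-- the identity in a domain -/
theorem identD {D : Type*} [CommRing D] [IsDomain D] (R S T c₀ u e f g h a v A : D) (hR : R ≠ 0)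
    (hS : S ≠ 0) (hT : T ≠ 0) (hu : c₀ * u = 1)
    (hA : A = 1 - R ^ 2 * S ^ 2 * T ^ 3 * (a * g - S * c₀ * e) * u) (hv : A * v = 1)
    (hdet : e + h + R ^ 2 * S ^ 3 * T ^ 3 * (e * h - f * g) = 0)
    (m1 m2 m3 m4 c : D) (hc : c = S * c₀) (h2 : m2 = T) (h3 : m3 = T ^ 2 * (a * g - S * c₀ * e) * u ^ 3)
    (h1 : m1 = -(R * S * T ^ 3 * g * u ^ 2 + T ^ 2 * (a * g - S * c₀ * e) * u ^ 3) * v)
    (h4 : m4 = (R * S ^ 3 * T ^ 3 * f + a * (R * S ^ 2 * T ^ 3) * (e - h) * u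
      - a ^ 2 * (R * S * T ^ 3) * g * u ^ 2 - T) * v) :
    (1 - R * m1 * a * c) * (1 - R * m3 * a * c) +
      ((1 - R * m1 * a * c) * (R * m2) + R * m1 * a ^ 2) * (-(R * m3 * c ^ 2)) =
        1 + R ^ 2 * S ^ 3 * T ^ 3 * e ∧
    (1 - R * m1 * a * c) * ((1 - R * m3 * a * c) * (R * m4) + R * m3 * a ^ 2) +
      ((1 - R * m1 * a * c) * (R * m2) + R * m1 * a ^ 2) *
        (-(R * m3 * c ^ 2) * (R * m4) + (1 + R * m3 * a * c)) = R ^ 2 * S ^ 3 * T ^ 3 * f ∧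
    -(R * m1 * c ^ 2) * (1 - R * m3 * a * c) +
      (-(R * m1 * c ^ 2) * (R * m2) + (1 + R * m1 * a * c)) * (-(R * m3 * c ^ 2)) =
        R ^ 2 * S ^ 3 * T ^ 3 * g ∧
    -(R * m1 * c ^ 2) * ((1 - R * m3 * a * c) * (R * m4) + R * m3 * a ^ 2) +
      (-(R * m1 * c ^ 2) * (R * m2) + (1 + R * m1 * a * c)) *
        (-(R * m3 * c ^ 2) * (R * m4) + (1 + R * m3 * a * c)) = 1 + R ^ 2 * S ^ 3 * T ^ 3 * h := by
  let ι := algebraMap D (FractionRing D)
  have hi : Function.Injective ι := IsFractionRing.injective D (FractionRing D)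
  have hne : ∀ x : D, x ≠ 0 → ι x ≠ 0 := fun x hx => by rwa [Ne, map_eq_zero_iff ι hi]
  have key := ident (ι R) (ι S) (ι T) (ι c₀) (ι u) (ι e) (ι f) (ι g) (ι h) (ι a) (ι v) (ι A)
    (hne R hR) (hne S hS) (hne T hT) (by rw [← map_mul, hu, map_one])
    (by rw [hA]; simp only [map_sub, map_mul, map_pow, map_one]) (by rw [← map_mul, hv, map_one])
    (by
      have := congrArg ι hdet
      simpa only [map_add, map_sub, map_mul, map_pow, map_one, map_zero] using this)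
    (ι m1) (ι m2) (ι m3) (ι m4) (by rw [h2]) (by rw [h3]; simp only [map_sub, map_mul, map_pow])
    (by rw [h1]; simp only [map_neg, map_add, map_sub, map_mul, map_pow])
    (by rw [h4]; simp only [map_add, map_sub, map_mul, map_pow])
  have hcι : ι c = ι S * ι c₀ := by rw [hc, map_mul]
  obtain ⟨k1, k2, k3, k4⟩ := key
  refine ⟨hi ?_, hi ?_, hi ?_, hi ?_⟩ <;>
    simp only [map_add, map_sub, map_mul, map_pow, map_one, map_neg, hcι]
  · exact k1
  · exact k2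
  · exact k3
  · exact k4

theorem pad : S_PAD := by
  intro p k r t a c X hp hct hmul hcong hU hL α β γ δ hdet hα hβ hγ hδ
  haveI : Fact p.Prime := ⟨hp⟩
  have hc0 : c ≠ 0 := by rintro rfl; exact hct (dvd_zero _)
  have hfin : FiniteMultiplicity (p : ℤ) c := by
    rw [Int.finiteMultiplicity_iff]
    exact ⟨by simpa using hp.one_lt.ne', hc0⟩
  obtain ⟨c₀, hc, hc₀⟩ := hfin.exists_eq_pow_mul_and_not_dvd
  set r' := multiplicity (p : ℤ) c with hr'
  have hr't : r' < t := by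
    by_contra hcon
    push_neg at hcon
    exact hct (hc ▸ Dvd.dvd.mul_right (pow_dvd_pow _ hcon) _)
  obtain ⟨s, hs⟩ : ∃ s, t = r' + s := ⟨t - r', by omega⟩
  have hs1 : 1 ≤ s := by omega
  have hM : 2 * r + 3 * t = 2 * r + 3 * r' + 3 * s := by omega
  obtain ⟨e, he⟩ := hα
  obtain ⟨f, hf⟩ := hβ
  obtain ⟨g, hg⟩ := hγ
  have hpZ : (p : ℤ_[p]) ≠ 0 := by exact_mod_cast hp.ne_zero
  have hMpow : ((p : ℤ_[p]) ^ (2 * r + 3 * t)) =
      ((p : ℤ_[p]) ^ r) ^ 2 * ((p : ℤ_[p]) ^ r') ^ 3 * ((p : ℤ_[p]) ^ s) ^ 3 := by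
    rw [hM, ← pow_mul, ← pow_mul, ← pow_mul, ← pow_add, ← pow_add]
    congr 1
    ring
  -- units
  have unit_of : ∀ x : ℤ_[p], (∃ y, x = 1 - (p : ℤ_[p]) * y) → IsUnit x := by
    rintro x ⟨y, rfl⟩
    apply IsLocalRing.isUnit_one_sub_self_of_mem_nonunits
    rw [mem_nonunits_iff]
    intro hu
    exact PadicInt.p_nonunit (isUnit_of_mul_isUnit_left hu)
  have hc₀u : IsUnit ((c₀ : ℤ) : ℤ_[p]) := by
    rw [PadicInt.isUnit_iff]
    by_contra hne
    have hlt : ‖((c₀ : ℤ) : ℤ_[p])‖ < 1 := lt_of_le_of_ne (PadicInt.norm_le_one _) hne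
    rw [PadicInt.norm_int_lt_one_iff_dvd] at hlt
    exact hc₀ hlt
  obtain ⟨u, hu⟩ := hc₀u.exists_right_inv
  set R : ℤ_[p] := (p : ℤ_[p]) ^ r with hR
  set S : ℤ_[p] := (p : ℤ_[p]) ^ r' with hS
  set T : ℤ_[p] := (p : ℤ_[p]) ^ s with hT
  have hTp : T = (p : ℤ_[p]) * (p : ℤ_[p]) ^ (s - 1) := by
    rw [hT, ← pow_succ']
    congr 1
    omega
  have hαu : IsUnit ((α : ℤ) : ℤ_[p]) := by
    apply unit_of
    refine ⟨-((p : ℤ_[p]) ^ (s - 1) * (R ^ 2 * S ^ 3 * T ^ 2 * e)), ?_⟩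
    have : (α : ℤ_[p]) = 1 + (p : ℤ_[p]) ^ (2 * r + 3 * t) * e := by
      have : α = 1 + (p : ℤ) ^ (2 * r + 3 * t) * e := by linarith
      rw [this]
      push_cast
      ring
    rw [this, hMpow]
    linear_combination (R ^ 2 * S ^ 3 * T ^ 2 * e) * hTp
  obtain ⟨αi, hαi⟩ := hαu.exists_right_inv
  have hAu : IsUnit (1 - R ^ 2 * S ^ 2 * T ^ 3 * ((a : ℤ_[p]) * g - S * c₀ * e) * u) := by
    apply unit_of
    refine ⟨(p : ℤ_[p]) ^ (s - 1) * (R ^ 2 * S ^ 2 * T ^ 2 * ((a : ℤ_[p]) * g - S * c₀ * e) * u), ?_⟩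
    linear_combination (-(R ^ 2 * S ^ 2 * T ^ 2 * ((a : ℤ_[p]) * g - S * c₀ * e) * u)) * hTp
  obtain ⟨v, hv⟩ := hAu.exists_right_inv
  have hα' : (α : ℤ_[p]) = 1 + R ^ 2 * S ^ 3 * T ^ 3 * e := by
    have : α = 1 + (p : ℤ) ^ (2 * r + 3 * t) * e := by linarith
    rw [this, ← hMpow]
    push_cast
    ring
  have hβ' : (β : ℤ_[p]) = R ^ 2 * S ^ 3 * T ^ 3 * f := by
    rw [hf, ← hMpow]
    push_cast
    ring
  have hγ' : (γ : ℤ_[p]) = R ^ 2 * S ^ 3 * T ^ 3 * g := by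
    rw [hg, ← hMpow]
    push_cast
    ring
  have hc' : (c : ℤ_[p]) = S * c₀ := by
    rw [hc]
    push_cast
    rfl
  set h : ℤ_[p] := (R ^ 2 * S ^ 3 * T ^ 3 * f * g - e) * αi with hh
  have hdetp : (e : ℤ_[p]) + h + R ^ 2 * S ^ 3 * T ^ 3 * (e * h - f * g) = 0 := by
    have h1 : (α : ℤ_[p]) * h = R ^ 2 * S ^ 3 * T ^ 3 * f * g - e := by
      rw [hh]
      linear_combination (R ^ 2 * S ^ 3 * T ^ 3 * f * g - e) * hαi
    rw [hα'] at h1
    linear_combination h1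
  obtain ⟨k1, k2, k3, k4⟩ := identD R S T (c₀ : ℤ_[p]) u e f g h a v _ (pow_ne_zero _ hpZ)
    (pow_ne_zero _ hpZ) (pow_ne_zero _ hpZ) hu rfl hv hdetp _ _ _ _ (c : ℤ_[p]) hc' rfl rfl rfl rfl
  generalize -(R * S * T ^ 3 * g * u ^ 2 + T ^ 2 * ((a : ℤ_[p]) * g - S * c₀ * e) * u ^ 3) * v = m1
    at k1 k2 k3 k4
  generalize T ^ 2 * ((a : ℤ_[p]) * g - S * c₀ * e) * u ^ 3 = m3 at k1 k2 k3 k4
  generalize (R * S ^ 3 * T ^ 3 * f + a * (R * S ^ 2 * T ^ 3) * (e - h) * u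
      - (a : ℤ_[p]) ^ 2 * (R * S * T ^ 3) * g * u ^ 2 - T) * v = m4 at k1 k2 k3 k4
  rw [← hα'] at k1
  rw [← hβ'] at k2
  rw [← hγ'] at k3
  let φ := PadicInt.toZModPow (p := p) k
  obtain ⟨n1, hn1⟩ := ZMod.intCast_surjective (φ m1)
  obtain ⟨n2, hn2⟩ := ZMod.intCast_surjective (φ T)
  obtain ⟨n3, hn3⟩ := ZMod.intCast_surjective (φ m3)
  obtain ⟨n4, hn4⟩ := ZMod.intCast_surjective (φ m4)
  have hφR : φ R = (p : ZMod (p ^ k)) ^ r := by rw [hR, map_pow, map_natCast]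
  have kk4 : φ (1 + R ^ 2 * S ^ 3 * T ^ 3 * h) = (δ : ZMod (p ^ k)) := by
    have hd : (α : ZMod (p ^ k)) * δ - β * γ = 1 := by
      have : ((α * δ - β * γ - 1 : ℤ) : ZMod (p ^ k)) = 0 := by
        rw [ZMod.intCast_zmod_eq_zero_iff_dvd]
        exact_mod_cast hdet
      push_cast at this
      linear_combination this
    have hαi' : (α : ZMod (p ^ k)) * φ αi = 1 := by
      have := congrArg φ hαi
      rwa [map_mul, map_intCast, map_one] at this
    have h1 : (α : ℤ_[p]) * (1 + R ^ 2 * S ^ 3 * T ^ 3 * h) - β * γ = 1 := by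
      rw [hα', hβ', hγ']
      linear_combination (R ^ 2 * S ^ 3 * T ^ 3) * hdetp
    have h2 := congrArg φ h1
    rw [map_sub, map_mul, map_mul, map_intCast, map_intCast, map_intCast, map_one] at h2
    linear_combination (φ αi) * (h2 - hd) - (φ (1 + R ^ 2 * S ^ 3 * T ^ 3 * h) - δ) * hαi'
  have kk1 := congrArg φ k1
  have kk2 := congrArg φ k2
  have kk3 := congrArg φ k3
  have kk4' := (congrArg φ k4).trans kk4
  simp only [map_add, map_sub, map_mul, map_pow, map_one, map_neg, map_intCast, hφR, ← hn1, ← hn2,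
    ← hn3, ← hn4] at kk1 kk2 kk3 kk4'
  have hdvd : ∀ x y : ℤ, (x : ZMod (p ^ k)) = y → (p : ℤ) ^ k ∣ x - y := by
    intro x y hxy
    have : ((x - y : ℤ) : ZMod (p ^ k)) = 0 := by push_cast; rw [hxy, sub_self]
    rw [ZMod.intCast_zmod_eq_zero_iff_dvd] at this
    exact_mod_cast this
  refine hcong _ _ _ _ _ _ _ _ (hmul _ _ _ _ _ _ _ _ (hmul _ _ _ _ _ _ _ _ (hL n1) (hU n2))
    (hmul _ _ _ _ _ _ _ _ (hL n3) (hU n4))) (hdvd _ _ ?_) (hdvd _ _ ?_) (hdvd _ _ ?_) (hdvd _ _ ?_)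
  · push_cast
    linear_combination kk1
  · push_cast
    linear_combination kk2
  · push_cast
    linear_combination kk3
  · push_cast
    linear_combination kk4'

end Pool.Agent.P8H1.UO
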